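import Mathlib

/-!
# Points of `Spec 𝓞_F[1/n]` over finite fields, `F` a subfield of the `n`-th cyclotomic field
-/

open NumberField Polynomial IsCyclotomicExtension.Rat

namespace H300.HW

section ext

/-- a ring hom to an algebraically closed field extends along an integral extension -/
lemma exists_extend {A B Ω : Type*} [CommRing A] [CommRing B] [Algebra A B]
    [Algebra.IsIntegral A B] (hinj : Function.Injective (algebraMap A B)) [Field Ω]
    [IsAlgClosed Ω] (φ : A →+* Ω) : ∃ ψ : B →+* Ω, ψ.comp (algebraMap A B) = φ := by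
  have hP : (RingHom.ker φ).IsPrime := RingHom.ker_isPrime φ
  obtain ⟨Q, -, hQ, hQP⟩ := Ideal.exists_ideal_over_prime_of_isIntegral (R := A) (S := B)
    (RingHom.ker φ) ⊥ (by
      rw [Ideal.comap_bot_of_injective _ hinj]; exact bot_le)
  have hover : Q.LiesOver (RingHom.ker φ) := ⟨hQP.symm⟩
  let _ : Algebra (A ⧸ RingHom.ker φ) Ω := (Ideal.Quotient.lift (RingHom.ker φ) φ
    (fun a ha => ha)).toAlgebra
  have hinj' : Function.Injective (algebraMap (A ⧸ RingHom.ker φ) Ω) := RingHom.kerLift_injective φ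
  have : FaithfulSMul (A ⧸ RingHom.ker φ) Ω := (faithfulSMul_iff_algebraMap_injective _ _).mpr hinj'
  have : Module.IsTorsionFree (A ⧸ RingHom.ker φ) Ω := inferInstance
  have hint : Algebra.IsIntegral (A ⧸ RingHom.ker φ) (B ⧸ Q) := inferInstance
  have : Algebra.IsAlgebraic (A ⧸ RingHom.ker φ) (B ⧸ Q) := inferInstance
  have : FaithfulSMul (A ⧸ RingHom.ker φ) (B ⧸ Q) := inferInstance
  have : Module.IsTorsionFree (A ⧸ RingHom.ker φ) (B ⧸ Q) := inferInstance
  let f : (B ⧸ Q) →ₐ[A ⧸ RingHom.ker φ] Ω := IsAlgClosed.lift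
  refine ⟨(f : (B ⧸ Q) →+* Ω).comp (Ideal.Quotient.mk Q), ?_⟩
  ext a
  simp only [RingHom.coe_comp, Function.comp_apply, RingHom.coe_coe]
  have h1 : Ideal.Quotient.mk Q (algebraMap A B a) =
    algebraMap (A ⧸ RingHom.ker φ) (B ⧸ Q) (Ideal.Quotient.mk _ a) := rfl
  rw [h1, AlgHom.commutes]
  rfl

end ext


section cyc

variable (n : ℕ) [NeZero n] (L : Type*) [Field L] [NumberField L] [hL : IsCyclotomicExtension {n} ℚ L]

/-- the primitive root of unity in the ring of integers -/
noncomputable def zz : 𝓞 L := (IsCyclotomicExtension.zeta_spec n ℚ L).toInteger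

lemma zz_prim : IsPrimitiveRoot (zz n L) n :=
  (IsCyclotomicExtension.zeta_spec n ℚ L).toInteger_isPrimitiveRoot

lemma smul_zz (σ : Gal(L/ℚ)) : σ • zz n L = zz n L ^ (galEquivZMod n L σ).val.val :=
  galEquivZMod_smul_of_pow_eq n L σ (zz_prim n L).pow_eq_one

/-- ring homs are determined by the image of the root of unity -/
lemma hom_ext {R : Type*} [CommRing R] {f g : 𝓞 L →+* R} (h : f (zz n L) = g (zz n L)) : f = g := by
  have h1 := adjoin_singleton_eq_top (IsCyclotomicExtension.zeta_spec n ℚ L)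
  have h2 : f.toIntAlgHom = g.toIntAlgHom := by
    apply AlgHom.ext_of_adjoin_eq_top h1
    intro x hx
    rw [Set.mem_singleton_iff] at hx
    subst hx
    exact h
  ext x
  exact DFunLike.congr_fun h2 x

lemma invariant [IsGalois ℚ L] (F : IntermediateField ℚ L) :
    Algebra.IsInvariant (𝓞 F) (𝓞 L) F.fixingSubgroup := by
  refine ⟨fun b hb => ?_⟩
  have h1 : (b : L) ∈ IntermediateField.fixedField F.fixingSubgroup := by
    rintro ⟨g, hg⟩
    have := hb ⟨g, hg⟩
    exact congrArg (algebraMap (𝓞 L) L) this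
  rw [IsGalois.fixedField_fixingSubgroup] at h1
  have h2 : IsIntegral ℤ (⟨(b : L), h1⟩ : F) := by
    have : IsIntegral ℤ (b : L) := b.isIntegral_coe
    rwa [← isIntegral_algebraMap_iff (FaithfulSMul.algebraMap_injective F L)]
  refine ⟨⟨⟨(b : L), h1⟩, h2⟩, ?_⟩
  apply RingOfIntegers.ext
  rfl

lemma fib [IsGalois ℚ L] (F : IntermediateField ℚ L) {Ω : Type*} [Field Ω] (ψ₁ ψ₂ : 𝓞 L →+* Ω)
    (h : ψ₁.comp (algebraMap (𝓞 F) (𝓞 L)) = ψ₂.comp (algebraMap (𝓞 F) (𝓞 L))) :
    ∃ σ ∈ F.fixingSubgroup, ψ₂ (zz n L) = ψ₁ (σ • zz n L) := by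
  classical
  have := invariant L F
  have : Fintype F.fixingSubgroup := Fintype.ofFinite _
  obtain ⟨P, hP⟩ := Algebra.IsInvariant.charpoly_mem_lifts (𝓞 F) (𝓞 L) F.fixingSubgroup (zz n L)
  rw [Polynomial.coe_mapRingHom] at hP
  have h0 : (MulSemiringAction.charpoly F.fixingSubgroup (zz n L)).eval (zz n L) = 0 := by
    rw [MulSemiringAction.charpoly_eq, Polynomial.eval_prod]
    apply Finset.prod_eq_zero (Finset.mem_univ (1 : F.fixingSubgroup))
    simp
  have h1 : ((MulSemiringAction.charpoly F.fixingSubgroup (zz n L)).map ψ₂).eval (ψ₂ (zz n L)) = 0 := by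
    rw [Polynomial.eval_map, Polynomial.eval₂_at_apply, h0, map_zero]
  rw [← hP, Polynomial.map_map, ← h, ← Polynomial.map_map, hP, MulSemiringAction.charpoly_eq,
    Polynomial.map_prod, Polynomial.eval_prod, Finset.prod_eq_zero_iff] at h1
  obtain ⟨σ, -, hσ⟩ := h1
  refine ⟨σ.1, σ.2, ?_⟩
  simp only [Polynomial.map_sub, Polynomial.map_X, Polynomial.map_C, Polynomial.eval_sub,
    Polynomial.eval_X, Polynomial.eval_C] at hσ
  exact sub_eq_zero.mp hσ

lemma prim_image {Ω : Type*} [Field Ω] (hn : (n : Ω) ≠ 0) (ψ : 𝓞 L →+* Ω) :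
    IsPrimitiveRoot (ψ (zz n L)) n := by
  have : NeZero (n : Ω) := ⟨hn⟩
  rw [← Polynomial.isRoot_cyclotomic_iff]
  have h1 : (cyclotomic n (𝓞 L)).IsRoot (zz n L) := (zz_prim n L).isRoot_cyclotomic (NeZero.pos n)
  have h2 := h1.map (f := ψ)
  rwa [Polynomial.map_cyclotomic] at h2

/-- transitivity of the Galois group on the points of the cyclotomic ring -/
lemma trans {Ω : Type*} [Field Ω] (hn : (n : Ω) ≠ 0) (ψ₁ ψ₂ : 𝓞 L →+* Ω) :
    ∃ σ : Gal(L/ℚ), ψ₂ = ψ₁.comp (MulSemiringAction.toRingHom Gal(L/ℚ) (𝓞 L) σ) := by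
  obtain ⟨i, hi, hco, hii⟩ := ((prim_image n L hn ψ₁).isPrimitiveRoot_iff).mp
    (prim_image n L hn ψ₂)
  refine ⟨(galEquivZMod n L).symm (ZMod.unitOfCoprime i hco), ?_⟩
  apply hom_ext n L
  simp only [RingHom.coe_comp, Function.comp_apply, MulSemiringAction.toRingHom_apply]
  rw [smul_zz, MulEquiv.apply_symm_apply, map_pow, ← hii, ZMod.coe_unitOfCoprime, ZMod.val_natCast,
    Nat.mod_eq_of_lt hi]

lemma smul_inj {Ω : Type*} [Field Ω] (hn : (n : Ω) ≠ 0) (ψ : 𝓞 L →+* Ω) {g g' : Gal(L/ℚ)}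
    (h : ψ (g • zz n L) = ψ (g' • zz n L)) : g = g' := by
  rw [smul_zz, smul_zz, map_pow, map_pow] at h
  have h1 := (prim_image n L hn ψ).pow_inj (ZMod.val_lt _) (ZMod.val_lt _) h
  apply (galEquivZMod n L).injective
  apply Units.ext
  exact ZMod.val_injective n h1

/-- the point of `F` attached to a Galois element -/
noncomputable def res (F : IntermediateField ℚ L) {Ω : Type*} [Field Ω] (ψ : 𝓞 L →+* Ω)
    (g : Gal(L/ℚ)) : 𝓞 F →+* Ω :=
  (ψ.comp (MulSemiringAction.toRingHom Gal(L/ℚ) (𝓞 L) g)).comp (algebraMap (𝓞 F) (𝓞 L))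

lemma smul_of_mem {F : IntermediateField ℚ L} {σ : Gal(L/ℚ)} (hσ : σ ∈ F.fixingSubgroup)
    (x : 𝓞 F) : σ • algebraMap (𝓞 F) (𝓞 L) x = algebraMap (𝓞 F) (𝓞 L) x := by
  apply RingOfIntegers.ext
  exact (IntermediateField.mem_fixingSubgroup_iff F σ).mp hσ _ (x : F).2

lemma res_eq_iff [IsGalois ℚ L] (F : IntermediateField ℚ L) {Ω : Type*} [Field Ω]
    (hn : (n : Ω) ≠ 0) (ψ : 𝓞 L →+* Ω) (g g' : Gal(L/ℚ)) :
    res L F ψ g = res L F ψ g' ↔ g⁻¹ * g' ∈ F.fixingSubgroup := by
  constructor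
  · intro h
    obtain ⟨σ, hσ, h1⟩ := fib n L F _ _ h
    simp only [RingHom.coe_comp, Function.comp_apply, MulSemiringAction.toRingHom_apply] at h1
    rw [smul_smul] at h1
    have h2 := smul_inj n L hn ψ h1
    rw [h2]
    simpa using hσ
  · intro h
    ext x
    simp only [res, RingHom.coe_comp, Function.comp_apply, MulSemiringAction.toRingHom_apply]
    have : g' = g * (g⁻¹ * g') := by group
    rw [this, mul_smul, smul_of_mem L h]

lemma res_surj (F : IntermediateField ℚ L) {Ω : Type*} [Field Ω] [IsAlgClosed Ω]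
    (hn : (n : Ω) ≠ 0) (ψ : 𝓞 L →+* Ω) : Function.Surjective (res L F ψ) := by
  intro φ
  obtain ⟨ψ', hψ'⟩ := exists_extend (A := 𝓞 F) (B := 𝓞 L)
    (FaithfulSMul.algebraMap_injective (𝓞 F) (𝓞 L)) φ
  obtain ⟨σ, hσ⟩ := trans n L hn ψ ψ'
  exact ⟨σ, by rw [res, ← hσ, hψ']⟩

lemma exists_point {Ω : Type*} [Field Ω] [IsAlgClosed Ω] : Nonempty (𝓞 L →+* Ω) := by
  obtain ⟨ψ, -⟩ := exists_extend (A := ℤ) (B := 𝓞 L)
    (FaithfulSMul.algebraMap_injective ℤ (𝓞 L)) (Int.castRingHom Ω)
  exact ⟨ψ⟩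

/-- the number of geometric points -/
lemma card_points [IsGalois ℚ L] (F : IntermediateField ℚ L) {Ω : Type*} [Field Ω] [IsAlgClosed Ω]
    (hn : (n : Ω) ≠ 0) : Nat.card (𝓞 F →+* Ω) = F.fixingSubgroup.index := by
  obtain ⟨ψ⟩ := exists_point L (Ω := Ω)
  have e : (Gal(L/ℚ) ⧸ F.fixingSubgroup) ≃ (𝓞 F →+* Ω) := by
    refine Equiv.ofBijective (Quotient.lift (res L F ψ) ?_) ⟨?_, ?_⟩
    · intro a b hab
      rw [res_eq_iff n L F hn]
      exact QuotientGroup.leftRel_apply.mp hab
    · intro a b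
      induction a using Quotient.inductionOn
      induction b using Quotient.inductionOn
      intro h
      apply Quotient.sound
      apply QuotientGroup.leftRel_apply.mpr
      exact (res_eq_iff n L F hn ψ _ _).mp h
    · intro φ
      obtain ⟨g, hg⟩ := res_surj n L F hn ψ φ
      exact ⟨Quotient.mk _ g, hg⟩
  rw [← Nat.card_congr e, Subgroup.index]

/-- elements of a finite subfield are the fixed points of the Frobenius power -/
lemma mem_range_iff {k Ω : Type*} [Field k] [Finite k] [Field Ω] [Algebra k Ω] (y : Ω) :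
    y ^ Nat.card k = y ↔ y ∈ Set.range (algebraMap k Ω) := by
  classical
  have : Fintype k := Fintype.ofFinite k
  have hc : Nat.card k = Fintype.card k := Nat.card_eq_fintype_card
  constructor
  · intro hy
    set S : Finset Ω := Finset.univ.image (algebraMap k Ω) with hS
    have hcard : S.card = Fintype.card k := by
      rw [hS, Finset.card_image_of_injective _ (algebraMap k Ω).injective, Finset.card_univ]
    have h1 : 1 < Fintype.card k := Fintype.one_lt_card
    have hne : (X ^ Fintype.card k - X : Polynomial Ω) ≠ 0 := FiniteField.X_pow_card_sub_X_ne_zero Ω h1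
    have hsub : S ⊆ (X ^ Fintype.card k - X : Polynomial Ω).roots.toFinset := by
      intro z hz
      rw [hS, Finset.mem_image] at hz
      obtain ⟨a, -, rfl⟩ := hz
      rw [Multiset.mem_toFinset, Polynomial.mem_roots hne]
      simp only [IsRoot.def, eval_sub, eval_pow, eval_X]
      rw [← map_pow, FiniteField.pow_card, sub_self]
    have hle : (X ^ Fintype.card k - X : Polynomial Ω).roots.toFinset.card ≤ S.card := by
      rw [hcard]
      refine (Multiset.toFinset_card_le _).trans ((Polynomial.card_roots' _).trans ?_)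
      rw [FiniteField.X_pow_card_sub_X_natDegree_eq Ω h1]
    have heq := Finset.eq_of_subset_of_card_le hsub hle
    have hyS : y ∈ S := by
      rw [heq, Multiset.mem_toFinset, Polynomial.mem_roots hne]
      simp only [IsRoot.def, eval_sub, eval_pow, eval_X]
      rw [← hc, hy, sub_self]
    rw [hS, Finset.mem_image] at hyS
    obtain ⟨a, -, ha⟩ := hyS
    exact ⟨a, ha⟩
  · rintro ⟨a, rfl⟩
    rw [← map_pow, hc, FiniteField.pow_card]

/-- Frobenius acts on the geometric points through the Galois group -/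
lemma frob_eq {Ω : Type*} [Field Ω] (q : ℕ) (hq : q.Coprime n)
    (f : Ω →+* Ω) (hf : ∀ x, f x = x ^ q) (ψ : 𝓞 L →+* Ω) :
    f.comp ψ = ψ.comp (MulSemiringAction.toRingHom Gal(L/ℚ) (𝓞 L)
      ((galEquivZMod n L).symm (ZMod.unitOfCoprime q hq))) := by
  apply hom_ext n L
  simp only [RingHom.coe_comp, Function.comp_apply, MulSemiringAction.toRingHom_apply]
  rw [smul_zz, MulEquiv.apply_symm_apply, map_pow, hf, ZMod.coe_unitOfCoprime, ZMod.val_natCast]
  have h1 : ψ (zz n L) ^ n = 1 := by rw [← map_pow, (zz_prim n L).pow_eq_one, map_one]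
  conv_lhs => rw [← Nat.div_add_mod q n, pow_add, pow_mul, h1, one_pow, one_mul]

/-- the number of points over a finite field -/
theorem card_finite_points [IsGalois ℚ L] (F : IntermediateField ℚ L) (k : Type*) [Field k]
    [Finite k] (hk : (Nat.card k).Coprime n) : 
      ((galEquivZMod n L).symm (ZMod.unitOfCoprime (Nat.card k) hk) ∈ F.fixingSubgroup →
        Nat.card (𝓞 F →+* k) = F.fixingSubgroup.index) ∧
      ((galEquivZMod n L).symm (ZMod.unitOfCoprime (Nat.card k) hk) ∉ F.fixingSubgroup →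
        Nat.card (𝓞 F →+* k) = 0) := by
  classical
  let Ω := AlgebraicClosure k
  obtain ⟨p, hp⟩ := CharP.exists k
  have : Fintype k := Fintype.ofFinite k
  obtain ⟨m, hpp, hm⟩ := FiniteField.card k p
  have hq : Nat.card k = p ^ (m : ℕ) := by rw [Nat.card_eq_fintype_card, hm]
  have : Fact p.Prime := ⟨hpp⟩
  have hpn : p.Coprime n := by
    rw [hq] at hk
    exact Nat.Coprime.coprime_dvd_left (dvd_pow_self p m.pos.ne') hk
  have : CharP Ω p := charP_of_injective_algebraMap (algebraMap k Ω).injective p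
  have hn : (n : Ω) ≠ 0 := by
    intro h
    rw [CharP.cast_eq_zero_iff Ω p n] at h
    have := hpn.symm
    rw [Nat.Coprime, Nat.gcd_eq_right h] at this
    exact hpp.one_lt.ne' this
  let f : Ω →+* Ω := iterateFrobenius Ω p m
  have hf : ∀ x, f x = x ^ Nat.card k := by
    intro x
    rw [hq]
    rfl
  set σ := (galEquivZMod n L).symm (ZMod.unitOfCoprime (Nat.card k) hk) with hσ
  have hfr : ∀ ψ : 𝓞 L →+* Ω, f.comp ψ = ψ.comp (MulSemiringAction.toRingHom Gal(L/ℚ) (𝓞 L) σ) :=
    fun ψ => frob_eq n L (Nat.card k) hk f hf ψ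
  have hext : ∀ φ : 𝓞 F →+* Ω, ∃ ψ : 𝓞 L →+* Ω, ψ.comp (algebraMap (𝓞 F) (𝓞 L)) = φ := fun φ =>
    exists_extend (A := 𝓞 F) (B := 𝓞 L) (FaithfulSMul.algebraMap_injective (𝓞 F) (𝓞 L)) φ
  have hinj : Function.Injective (fun φ : 𝓞 F →+* k => (algebraMap k Ω).comp φ) := by
    intro a b hab
    ext x
    have := DFunLike.congr_fun hab x
    exact (algebraMap k Ω).injective this
  constructor
  · intro hmem
    have hsurj : Function.Surjective (fun φ : 𝓞 F →+* k => (algebraMap k Ω).comp φ) := by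
      intro φ
      obtain ⟨ψ, rfl⟩ := hext φ
      have h1 : ∀ x : 𝓞 F, ψ (algebraMap (𝓞 F) (𝓞 L) x) ∈ (algebraMap k Ω).fieldRange := by
        intro x
        have h2 := DFunLike.congr_fun (hfr ψ) (algebraMap (𝓞 F) (𝓞 L) x)
        simp only [RingHom.coe_comp, Function.comp_apply, MulSemiringAction.toRingHom_apply] at h2
        rw [smul_of_mem L hmem, hf] at h2
        exact (mem_range_iff _).mp h2
      let e : k ≃+* (algebraMap k Ω).fieldRange :=
        RingEquiv.ofBijective _ (RingHom.rangeRestrictField_bijective (algebraMap k Ω))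
      let φ1 : 𝓞 F →+* (algebraMap k Ω).fieldRange :=
        RingHom.codRestrict (ψ.comp (algebraMap (𝓞 F) (𝓞 L))) _ h1
      refine ⟨(e.symm : (algebraMap k Ω).fieldRange →+* k).comp φ1, ?_⟩
      ext x
      simp only [RingHom.coe_comp, Function.comp_apply, RingHom.coe_coe]
      have h3 : ((e (e.symm (φ1 x)) : (algebraMap k Ω).fieldRange) : Ω) =
        algebraMap k Ω (e.symm (φ1 x)) := rfl
      rw [← h3, e.apply_symm_apply]
      rfl
    rw [← card_points n L F hn]
    exact Nat.card_congr (Equiv.ofBijective _ ⟨hinj, hsurj⟩)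
  · intro hmem
    by_contra hne
    have : Nonempty (𝓞 F →+* k) := (Nat.card_pos_iff.mp (Nat.pos_of_ne_zero hne)).1
    obtain ⟨φ⟩ := this
    obtain ⟨ψ, hψ⟩ := hext ((algebraMap k Ω).comp φ)
    apply hmem
    have h1 : res L F ψ 1 = res L F ψ σ := by
      ext x
      have h2 := DFunLike.congr_fun (hfr ψ) (algebraMap (𝓞 F) (𝓞 L) x)
      have h3 := DFunLike.congr_fun hψ x
      simp only [RingHom.coe_comp, Function.comp_apply, MulSemiringAction.toRingHom_apply] at h2 h3
      simp only [res, RingHom.coe_comp, Function.comp_apply, MulSemiringAction.toRingHom_apply,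
        one_smul]
      rw [← h2, hf, h3, ← map_pow, Nat.card_eq_fintype_card, FiniteField.pow_card]
    have h4 := (res_eq_iff n L F hn ψ _ _).mp h1
    simpa using h4

/-- the group of characters attached to `F` -/
noncomputable def YY (F : IntermediateField ℚ L) : Subgroup (DirichletCharacter ℂ n) :=
  (subgroupGalEquivSubgroupChar n L ℂ F.fixingSubgroup).ofDual

lemma mem_YY (F : IntermediateField ℚ L) (χ : DirichletCharacter ℂ n) :
    χ ∈ YY n L F ↔ ∀ σ ∈ F.fixingSubgroup, χ (galEquivZMod n L σ) = 1 :=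
  mem_subgroupGalEquivSubgroupChar_iff n L ℂ χ _

lemma mem_fixing_iff (F : IntermediateField ℚ L) (σ : Gal(L/ℚ)) :
    σ ∈ F.fixingSubgroup ↔ ∀ χ ∈ YY n L F, χ (galEquivZMod n L σ) = 1 := by
  have h := mem_subgroupGalEquivSubgroupChar_symm_iff n L ℂ σ (YY n L F)
  rw [← h, YY, OrderDual.toDual_ofDual, OrderIso.symm_apply_apply]

lemma card_YY (F : IntermediateField ℚ L) : Nat.card (YY n L F) = F.fixingSubgroup.index := by
  have : IsMulCommutative Gal(L/ℚ) :=
    ⟨⟨fun a b => (galEquivZMod n L).injective (by rw [map_mul, map_mul, mul_comm])⟩⟩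
  rw [YY, card_subgroupGalEquivSubgroupChar, Subgroup.index]

open Classical in
/-- the number of points over a finite field as a character sum -/
theorem points_eq_sum (F : IntermediateField ℚ L) (k : Type*) [Field k]
    [Finite k] (hk : (Nat.card k).Coprime n) : (Nat.card (𝓞 F →+* k) : ℂ) =
      ∑ χ : YY n L F, (χ : DirichletCharacter ℂ n) (Nat.card k : ZMod n) := by
  have : IsGalois ℚ L := IsCyclotomicExtension.isGalois {n} ℚ L
  obtain ⟨h1, h2⟩ := card_finite_points n L F k hk
  set σ := (galEquivZMod n L).symm (ZMod.unitOfCoprime (Nat.card k) hk) with hσ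
  have h3 : ((galEquivZMod n L σ : (ZMod n)ˣ) : ZMod n) = (Nat.card k : ZMod n) := by
    rw [hσ, MulEquiv.apply_symm_apply, ZMod.coe_unitOfCoprime]
  by_cases hmem : σ ∈ F.fixingSubgroup
  · rw [h1 hmem]
    have h4 : ∀ χ : YY n L F, (χ : DirichletCharacter ℂ n) (Nat.card k : ZMod n) = 1 := by
      intro χ
      have := (mem_YY n L F χ.1).mp χ.2 σ hmem
      rwa [h3] at this
    rw [Finset.sum_congr rfl (fun χ _ => h4 χ), Finset.sum_const, Finset.card_univ, nsmul_eq_mul,
      mul_one, ← card_YY n L F, Nat.card_eq_fintype_card]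
  · rw [h2 hmem]
    rw [mem_fixing_iff n L F σ] at hmem
    push Not at hmem
    obtain ⟨χ₀, hχ₀, hne⟩ := hmem
    rw [h3] at hne
    have h5 : χ₀ (Nat.card k : ZMod n) * ∑ χ : YY n L F, (χ : DirichletCharacter ℂ n) (Nat.card k : ZMod n)
        = ∑ χ : YY n L F, (χ : DirichletCharacter ℂ n) (Nat.card k : ZMod n) := by
      rw [Finset.mul_sum]
      refine Fintype.sum_equiv (Equiv.mulLeft (⟨χ₀, hχ₀⟩ : YY n L F)) _ _ ?_
      intro χ
      simp [MulChar.mul_apply]
    have h6 : (χ₀ (Nat.card k : ZMod n) - 1) *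
        ∑ χ : YY n L F, (χ : DirichletCharacter ℂ n) (Nat.card k : ZMod n) = 0 := by
      rw [sub_mul, h5, one_mul, sub_self]
    rcases mul_eq_zero.mp h6 with h7 | h7
    · exact absurd (sub_eq_zero.mp h7) hne
    · rw [h7, Nat.cast_zero]

/-- there are finitely many points over a finite field -/
theorem finite_points (F : IntermediateField ℚ L) (k : Type*) [Field k]
    [Finite k] (hk : (Nat.card k).Coprime n) : Finite (𝓞 F →+* k) := by
  have : IsGalois ℚ L := IsCyclotomicExtension.isGalois {n} ℚ L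
  let Ω := AlgebraicClosure k
  have hn : (n : Ω) ≠ 0 := by
    obtain ⟨p, hp⟩ := CharP.exists k
    have : Fintype k := Fintype.ofFinite k
    obtain ⟨m, hpp, hm⟩ := FiniteField.card k p
    have hq : Nat.card k = p ^ (m : ℕ) := by rw [Nat.card_eq_fintype_card, hm]
    have hpn : p.Coprime n := by
      rw [hq] at hk
      exact Nat.Coprime.coprime_dvd_left (dvd_pow_self p m.pos.ne') hk
    have : CharP Ω p := charP_of_injective_algebraMap (algebraMap k Ω).injective p
    intro h
    rw [CharP.cast_eq_zero_iff Ω p n] at h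
    have := hpn.symm
    rw [Nat.Coprime, Nat.gcd_eq_right h] at this
    exact hpp.one_lt.ne' this
  have h1 : Nat.card (𝓞 F →+* Ω) ≠ 0 := by
    rw [card_points n L F hn]
    exact Subgroup.index_ne_zero_of_finite
  have : Finite (𝓞 F →+* Ω) := Nat.finite_of_card_ne_zero h1
  have hinj : Function.Injective (fun φ : 𝓞 F →+* k => (algebraMap k Ω).comp φ) := by
    intro a b hab
    ext x
    have := DFunLike.congr_fun hab x
    exact (algebraMap k Ω).injective this
  exact Finite.of_injective _ hinj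

end cyc

end H300.HW
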